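import Pool.Agent.Work.MP_659252_gt.SP.C.LevB
import Pool.Agent.Work.MP_659252_gt.QR.Q.CutB
import Pool.Agent.Work.MP_659252_gt.QR.L.BilB

/-!
# The tensor `conf` as a layered direction.  Size: M.

PROOFS.  `wt A T x = (1/2) Q (dot A) (lev A T x) x x`.
`wt_smooth`: near a point with `0 < lv < T`, `lev` is smooth (`lev_contDiffAt`, `lv_root`) and `dot A` is smooth on `(0, T)` (`Y.dot_smooth`).  `wt_hom`: `lev_smul`, bilinearity.  `wt_pos`: `mono`.
`conf_dir`: fix `x`.  If `x 0 = 0` both sides are `0` (`sign 0 = 0`).  Otherwise `x ≠ 0`, `lv x = lev x`.  `b` and `deriv b` vanish outside of `[a, c] ⊆ (0, T)`.  If `lev x ∉ [a, c]` both sides are `0`.  Otherwise `0 < lv x < T` and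
`dir (lv) (wt) 0 b x i j = sign (x 0) b'(lev x) wt x (gr_i gr_j) = sign (x 0) b' (Q'/2) (4/Q'^2) AX_i AX_j = 2 sign (x 0) b' AX_i AX_j/Q'` (`lv_gr`).
`dir_cut`: if `f y ≤ lo` then `g y ≤ lo`, if `hi ≤ f y` then `hi ≤ g y`; `b`, `deriv b` vanish outside of a compact part of `(lo, hi)`.  At `x ≠ 0` with `lo < f x < hi`: `g = f` near `x` (continuity of `f`), so `gr g x = gr f x`, and `v x = w x`,
`m x = k x`.  Otherwise both sides are `0`; at `x = 0` both are `0` (`sign 0 = 0`).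
`kq_ne`: `Kq g v m x V = bil (m x) V V - v x * (second derivative) - (fderiv v x V) (fderiv g x V)`, `fderiv g x V = gr g x ⬝ V = 0`, `m x = 0`, second derivative `= D2 g x V < 0` (`L.curv`, `D2_eq`, `DD`), `v x > 0`: `Kq > 0`.
-/

namespace Pool.Agent.Work.MP_659252_gt.SP

open scoped ContDiff Topology
open Pool.Agent.Work.MP_659252_gt.Z (V Ten val Tan InT)
open Pool.Agent.Work.MP_659252_gt.Y (Path Q AX dot Nested lev conf)
open Pool.Agent.Work.MP_659252_gt.QR (gr D2 Layered SymTen dir Bump Kq Loc Mat bil mul)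

variable {d : ℕ}

/-- The weight which turns `conf` into a layered direction. -/
noncomputable def wt (A : Path d) (T : ℝ) (x : V d) : ℝ := (1 / 2) * Q (dot A) (lev A T x) x x

theorem wt_smooth (A : Path d) (T : ℝ) (h : Solid A T) :
    ContDiffOn ℝ ∞ (wt A T) {x | 0 < lv A T x ∧ lv A T x < T} := by
  rintro x ⟨h1, h2⟩
  obtain ⟨hx, he, hq⟩ := lv_root A T h x h1 h2
  rw [he] at h1 h2
  have hl : ContDiffAt ℝ ∞ (lev A T) x := Y.lev_contDiffAt h.nested ⟨h1, h2⟩ x hx hq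
  have hd : ∀ i j, ContDiffAt ℝ ∞ (fun y => dot A (lev A T y) i j) x := fun i j =>
    ContDiffAt.comp x ((Y.dot_smooth h.nested i j).contDiffAt (isOpen_Ioo.mem_nhds ⟨h1, h2⟩)) hl
  have hc : ∀ i : Fin (d + 1), ContDiffAt ℝ ∞ (fun y : V d => y i) x := fun i =>
    (contDiff_apply ℝ ℝ i).contDiffAt
  refine ContDiffAt.contDiffWithinAt ?_
  unfold wt Q
  exact contDiffAt_const.mul (ContDiffAt.sum fun i _ => ContDiffAt.sum fun j _ =>
    (hd i j).mul ((hc i).mul (hc j)))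

theorem wt_hom (A : Path d) (T : ℝ) (c : ℝ) (x : V d) (hc : c ≠ 0) : wt A T (c • x) = c ^ 2 * wt A T x := by
  unfold wt
  rw [Y.lev_smul A T c hc x, Y.Q_smul, Y.Q_smul_right]
  ring

theorem wt_pos (A : Path d) (T : ℝ) (h : Solid A T) (x : V d) (h1 : 0 < lv A T x) (h2 : lv A T x < T) :
    0 < wt A T x := by
  obtain ⟨hx, he, -⟩ := lv_root A T h x h1 h2
  rw [he] at h1 h2
  have := h.nested.mono _ ⟨h1, h2⟩ x hx
  unfold wt
  positivity

private theorem bump_out {lo hi : ℝ} {b : ℝ → ℝ} (hb : Bump lo hi b) {s : ℝ}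
    (hs : s ≤ lo ∨ hi ≤ s) : b s = 0 ∧ deriv b s = 0 := by
  obtain ⟨-, a, c, ha, hc, h0⟩ := hb
  have hs' : s ∉ Set.Icc a c := by
    rintro ⟨h1, h2⟩
    rcases hs with h | h <;> linarith
  refine ⟨h0 s hs', ?_⟩
  have : b =ᶠ[𝓝 s] fun _ => 0 := by
    filter_upwards [isClosed_Icc.isOpen_compl.mem_nhds (Set.mem_compl hs')] with y hy
    exact h0 y hy
  rw [this.deriv_eq]
  exact deriv_const _ _

theorem conf_dir (A : Path d) (T : ℝ) (h : Solid A T) (b : ℝ → ℝ) (hb : Bump 0 T b) :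
    conf A T (deriv b) = dir (lv A T) (wt A T) (fun _ _ _ => 0) b := by
  funext x i j
  unfold conf dir
  by_cases hx0 : x 0 = 0
  · rw [hx0, Real.sign_zero]
    ring
  have hx : x ≠ 0 := by
    rintro rfl
    exact hx0 rfl
  have hlv : lv A T x = lev A T x := by
    unfold lv
    rw [if_neg hx]
  by_cases hr : 0 < lv A T x ∧ lv A T x < T
  · obtain ⟨h1, h2⟩ := hr
    have hg := lv_gr A T h x h1 h2
    have hpos : 0 < Q (dot A) (lev A T x) x x := by
      rw [hlv] at h1 h2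
      exact h.nested.mono _ ⟨h1, h2⟩ x hx
    rw [hg, hlv]
    unfold wt
    simp only [Pi.smul_apply, smul_eq_mul]
    field_simp
    ring
  · have h3 : lev A T x ≤ 0 ∨ T ≤ lev A T x := by
      rw [hlv] at hr
      by_contra hcon
      rw [not_or, not_le, not_le] at hcon
      exact hr hcon
    have h4 := bump_out hb h3
    rw [hlv, h4.1, h4.2]
    ring

theorem dir_cut (f w g v : V d → ℝ) (k m : Ten d) (lo hi : ℝ) (fc : ContinuousOn f {0}ᶜ)
    (heq : ∀ x, lo < f x → f x < hi → g x = f x ∧ v x = w x ∧ m x = k x) (hlo : ∀ x, f x ≤ lo → g x ≤ lo)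
    (hhi : ∀ x, hi ≤ f x → hi ≤ g x) (b : ℝ → ℝ) (hb : Bump lo hi b) : dir g v m b = dir f w k b := by
  funext x i j
  unfold dir
  by_cases hx : x = 0
  · subst hx
    rw [Pi.zero_apply, Real.sign_zero]
    ring
  by_cases hr : lo < f x ∧ f x < hi
  · obtain ⟨e1, e2, e3⟩ := heq x hr.1 hr.2
    have hc : ContinuousAt f x := fc.continuousAt (isOpen_compl_singleton.mem_nhds hx)
    have hn : g =ᶠ[𝓝 x] f := by
      filter_upwards [hc.eventually (lt_mem_nhds hr.1), hc.eventually (gt_mem_nhds hr.2)] with y h1 h2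
      exact (heq y h1 h2).1
    have hg : gr g x = gr f x := by
      funext n
      unfold gr
      rw [hn.fderiv_eq]
    rw [e1, e2, e3, hg]
  · have h3 : f x ≤ lo ∨ hi ≤ f x := by
      by_contra hcon
      rw [not_or, not_le, not_le] at hcon
      exact hr hcon
    have h4 : g x ≤ lo ∨ hi ≤ g x := h3.imp (hlo x) (hhi x)
    have h5 := bump_out hb h3
    have h6 := bump_out hb h4
    rw [h5.1, h5.2, h6.1, h6.2]
    ring

theorem kq_ne (g v : V d → ℝ) (m : Ten d) (lo hi : ℝ) (x : V d) (L : Loc g v m lo hi x) (hm : m x = 0)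
    (hv : 0 < v x) (W : V d) (hW : gr g x ⬝ᵥ W = 0) (hW0 : W 0 = 0) (hW1 : W ≠ 0) : Kq g v m x W ≠ 0 := by
  have hx : x ≠ 0 := by
    rintro rfl
    exact lt_irrefl _ L.P0
  have h1 := L.curv W hW hW0 hW1
  rw [QR.D2_eq g L.fs x hx W] at h1
  have h2 : fderiv ℝ g x W = 0 := by
    rw [← QR.gr_dot]
    exact hW
  have h3 : bil (m x) W W = 0 := by
    rw [hm]
    simp [bil]
  have h4 := mul_neg_of_pos_of_neg hv h1
  unfold Kq
  rw [h2, h3]
  apply ne_of_gt
  first
  | linarith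
  | (unfold QR.DD at h4; linarith)

end Pool.Agent.Work.MP_659252_gt.SP
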