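import Pool.Agent.Work.MP_659252_gt.SP.C.LevA

/-!
# From comparability of all the cones to nestedness.  Size: M.

PROOF.  Let `R = (0, T₁) × (0, T₂)`, preconnected.  `U = {(s, t) ∈ R | ∀ x, Q A₁ s x x ≤ 0 → Q A₂ t x x ≤ 0}`, `U' = {... | ∀ x, Q A₂ t x x ≤ 0 → Q A₁ s x x ≤ 0}`; `R = U ∪ U'`.
`U` is closed in `R`: let `(s_n, t_n) → (s, t)` in `R`, `(s_n, t_n) ∈ U`, `Q A₁ s x x ≤ 0`.  For `x' = x + ε u` with `u` such that `Q A₁ s u u < 0`, `Q A₁ s x u ≤ 0`, `ε > 0`: `Q A₁ s x' x' < 0`, so `Q A₁ s_n x' x' < 0` for large `n` (continuity of `A₁` at `s`),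
`Q A₂ t_n x' x' ≤ 0`, `Q A₂ t x' x' ≤ 0`; `ε → 0`.  The same for `U'`.  If both `U` and `U'` are nonempty they meet (preconnectedness with two closed sets: `isPreconnected_closed_iff`), at a point with
`∀ x, (Q A₁ s x x ≤ 0 ↔ Q A₂ t x x ≤ 0)`: contradiction to `hne`.  So `U = R` or `U' = R`.
-/

namespace Pool.Agent.Work.MP_659252_gt.SP

open scoped ContDiff Topology
open Pool.Agent.Work.MP_659252_gt.Z (V Ten val Tan InT)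
open Pool.Agent.Work.MP_659252_gt.Y (Path Q AX dot Nested lev conf)
open Pool.Agent.Work.MP_659252_gt.QR (gr D2 Layered SymTen dir Bump Kq Loc Mat bil mul)

variable {d : ℕ}

private theorem Q_line {A : Path d} (hs : ∀ s i j, A s i j = A s j i) (s : ℝ) (x u : V d) (ε : ℝ) :
    Q A s (x + ε • u) (x + ε • u) = Q A s x x + 2 * ε * Q A s x u + ε ^ 2 * Q A s u u := by
  rw [Y.Q_add, Y.Q_add_right, Y.Q_add_right, Y.Q_smul, Y.Q_smul, Y.Q_smul_right, Y.Q_smul_right,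
    Y.Q_comm hs s u x]
  ring

private theorem clo {A₁ : Path d} {T₁ : ℝ} {A₂ : Path d} {T₂ : ℝ} (h₁ : Solid A₁ T₁)
    (h₂ : Solid A₂ T₂) {s t : ℝ} (hs : s ∈ Set.Ioo 0 T₁) (ht : t ∈ Set.Ioo 0 T₂)
    (hc : ∀ V₁ ∈ 𝓝 s, ∀ V₂ ∈ 𝓝 t, ∃ s' ∈ V₁, ∃ t' ∈ V₂,
      ∀ x : V d, Q A₁ s' x x ≤ 0 → Q A₂ t' x x ≤ 0) :
    ∀ x : V d, Q A₁ s x x ≤ 0 → Q A₂ t x x ≤ 0 := by
  have strict : ∀ x : V d, Q A₁ s x x < 0 → Q A₂ t x x ≤ 0 := by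
    intro x hx
    by_contra hcon
    rw [not_le] at hcon
    have e1 : ∀ᶠ s' in 𝓝 s, Q A₁ s' x x < 0 :=
      (Y.Q_deriv h₁.nested hs x x).continuousAt.eventually (gt_mem_nhds hx)
    have e2 : ∀ᶠ t' in 𝓝 t, 0 < Q A₂ t' x x :=
      (Y.Q_deriv h₂.nested ht x x).continuousAt.eventually (lt_mem_nhds hcon)
    obtain ⟨s', hs', t', ht', hst⟩ := hc _ e1 _ e2
    exact absurd (hst x (le_of_lt hs')) (not_le.2 ht')
  intro x hx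
  obtain ⟨u, hu⟩ := h₁.solid s hs
  obtain ⟨v, hv, hxv⟩ : ∃ v : V d, Q A₁ s v v < 0 ∧ Q A₁ s x v ≤ 0 := by
    rcases le_or_gt (Q A₁ s x u) 0 with h | h
    · exact ⟨u, hu, h⟩
    · refine ⟨-u, ?_, ?_⟩
      · rw [Y.Q_neg, Y.Q_neg_right, neg_neg]
        exact hu
      · rw [Y.Q_neg_right]
        linarith
  have hneg : ∀ ε : ℝ, 0 < ε → Q A₂ t (x + ε • v) (x + ε • v) ≤ 0 := by
    intro ε hε
    apply strict
    rw [Q_line h₁.nested.symm]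
    have i1 := mul_nonpos_of_nonneg_of_nonpos hε.le hxv
    have i2 := mul_neg_of_pos_of_neg (pow_pos hε 2) hv
    linarith
  have hlim : Filter.Tendsto (fun ε : ℝ => Q A₂ t (x + ε • v) (x + ε • v)) (𝓝[>] 0)
      (𝓝 (Q A₂ t x x)) := by
    have e : (fun ε : ℝ => Q A₂ t (x + ε • v) (x + ε • v)) = fun ε =>
        Q A₂ t x x + 2 * ε * Q A₂ t x v + ε ^ 2 * Q A₂ t v v := by
      funext ε
      exact Q_line h₂.nested.symm t x v ε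
    rw [e]
    refine Filter.Tendsto.mono_left ?_ nhdsWithin_le_nhds
    have hc' : Continuous fun ε : ℝ => Q A₂ t x x + 2 * ε * Q A₂ t x v + ε ^ 2 * Q A₂ t v v := by
      fun_prop
    have := hc'.tendsto 0
    simpa using this
  exact le_of_tendsto hlim (Filter.eventually_of_mem self_mem_nhdsWithin fun ε hε => hneg ε hε)

theorem conn (A₁ : Path d) (T₁ : ℝ) (A₂ : Path d) (T₂ : ℝ) (h₁ : Solid A₁ T₁) (h₂ : Solid A₂ T₂)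
    (hne : ∀ s ∈ Set.Ioo 0 T₁, ∀ t ∈ Set.Ioo 0 T₂, ∃ x : V d, ¬(Q A₁ s x x ≤ 0 ↔ Q A₂ t x x ≤ 0))
    (hcmp : ∀ s ∈ Set.Ioo 0 T₁, ∀ t ∈ Set.Ioo 0 T₂,
      (∀ x : V d, Q A₁ s x x ≤ 0 → Q A₂ t x x ≤ 0) ∨ ∀ x : V d, Q A₂ t x x ≤ 0 → Q A₁ s x x ≤ 0) :
    Inside A₁ T₁ A₂ T₂ ∨ Inside A₂ T₂ A₁ T₁ := by
  have hpre : IsPreconnected (Set.Ioo 0 T₁ ×ˢ Set.Ioo 0 T₂) :=
    isPreconnected_Ioo.prod isPreconnected_Ioo
  by_contra hcon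
  rw [not_or] at hcon
  obtain ⟨c1, c2⟩ := hcon
  unfold Inside at c1 c2
  push Not at c1 c2
  obtain ⟨s1, hs1, t1, ht1, x1, hx1, hx1'⟩ := c1
  obtain ⟨t2, ht2, s2, hs2, x2, hx2, hx2'⟩ := c2
  have n' : ((Set.Ioo 0 T₁ ×ˢ Set.Ioo 0 T₂) ∩
      closure {p : ℝ × ℝ | ∀ x : V d, Q A₂ p.2 x x ≤ 0 → Q A₁ p.1 x x ≤ 0}).Nonempty := by
    refine ⟨(s1, t1), ⟨hs1, ht1⟩, subset_closure ?_⟩
    rcases hcmp s1 hs1 t1 ht1 with h | h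
    · exact absurd (h x1 hx1) (not_le.2 hx1')
    · exact h
  have n : ((Set.Ioo 0 T₁ ×ˢ Set.Ioo 0 T₂) ∩
      closure {p : ℝ × ℝ | ∀ x : V d, Q A₁ p.1 x x ≤ 0 → Q A₂ p.2 x x ≤ 0}).Nonempty := by
    refine ⟨(s2, t2), ⟨hs2, ht2⟩, subset_closure ?_⟩
    rcases hcmp s2 hs2 t2 ht2 with h | h
    · exact h
    · exact absurd (h x2 hx2) (not_le.2 hx2')
  obtain ⟨⟨s, t⟩, ⟨hs, ht⟩, hc, hc'⟩ := isPreconnected_closed_iff.1 hpre _ _ isClosed_closure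
    isClosed_closure (by
      rintro ⟨s, t⟩ ⟨hs, ht⟩
      rcases hcmp s hs t ht with h | h
      · exact Or.inl (subset_closure h)
      · exact Or.inr (subset_closure h)) n n'
  obtain ⟨x, hx⟩ := hne s hs t ht
  refine hx ⟨clo h₁ h₂ hs ht ?_ x, clo h₂ h₁ ht hs ?_ x⟩
  · intro V₁ hV₁ V₂ hV₂
    obtain ⟨⟨a, b⟩, ⟨ha, hb⟩, hab⟩ := mem_closure_iff_nhds.1 hc _ (prod_mem_nhds hV₁ hV₂)
    exact ⟨a, ha, b, hb, hab⟩
  · intro V₁ hV₁ V₂ hV₂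
    obtain ⟨⟨a, b⟩, ⟨ha, hb⟩, hab⟩ := mem_closure_iff_nhds.1 hc' _ (prod_mem_nhds hV₂ hV₁)
    exact ⟨b, hb, a, ha, hab⟩

end Pool.Agent.Work.MP_659252_gt.SP
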