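import Pool.Agent.Work.MP_659252_gt.SP.Defs
import Pool.Agent.Work.MP_659252_gt.SP.G.LorA
import Pool.Agent.Work.MP_659252_gt.Y.LevD

/-!
# The level function of a solid nested family.  Size: M.

`lv A T x = lev A T x` for `x ≠ 0` and `lv A T 0 = 0`.
PROOFS.  `solid_lor`: `bil (A s) = Q A s` by definition.
`lv_root`: `x ≠ 0`, `0 < lv < T`, `s = lev A T x ∈ (0, T)`: if `0 < Q A s x x` then `lev < s` (`lev_lt`), if `Q A s x x < 0` then `s < lev` (`lt_lev`).
`lv_iff`: for `x ≠ 0`, `s ∈ (0, T)`: `s < lev A T x ↔ Q A s x x < 0`: `lt_lev` and, conversely, `0 ≤ Q A s x x` gives `lev ≤ s` (`lev_lt`, `lev_eq`).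
`lv_range`: `0 ≤ lev A T x ≤ T` (`sSup` of a subset of `(0, T)`; `Real.sSup_nonneg`, `csSup_le` or `sSup ∅ = 0`).
`lv_zero`: `x 0 = 0`, `x ≠ 0`: the set is empty (`pos`).  `lv_hom`: `lev_smul`; `x = 0` trivial.
`lv_cont`: at `x ≠ 0` with `0 < lev x < T`: `lev_contDiffAt` (with `lv_root`).  If `lev x = 0`: for `0 < s < min ε T`: `0 < Q A s x x` (else `s ≤ lev x` by `lv_iff`/`lev_eq`), so `0 < Q A s y y` for `y` near `x` and `0 ≤ lev y < s`.
If `lev x = T`: for `s ∈ (0, T)` near `T`: `Q A s x x < 0` (`lv_iff`), the same for `y` near `x`, so `s < lev y ≤ T`.  (`lev x < 0` or `> T` impossible by `lv_range`.)  Near `x ≠ 0` the functions `lv` and `lev` agree.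
`lv_smooth`: `lev_contDiffAt` and `lv_root`.
`lv_conv`: `x 0, y 0 > 0`; let `s < min (lv x) (lv y)`, `0 < s` (then `s < T`): `Q A s x x < 0`, `Q A s y y < 0` (`lv_iff`), so `Q A s x y < 0` (`lor_neg_mul`) and `Q A s (x+y) (x+y) < 0`, `s < lv (x + y)`.  All `s < min` (`le_of_forall_lt`;
for `s ≤ 0` use `0 ≤ lv`, and if `min ≤ 0` the claim is clear).
-/

namespace Pool.Agent.Work.MP_659252_gt.SP

open scoped ContDiff Topology
open Pool.Agent.Work.MP_659252_gt.Z (V Ten val Tan InT)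
open Pool.Agent.Work.MP_659252_gt.Y (Path Q AX dot Nested lev conf)
open Pool.Agent.Work.MP_659252_gt.QR (gr D2 Layered SymTen dir Bump Kq Loc Mat bil mul)

variable {d : ℕ}

/-- The level function, zero at the origin. -/
noncomputable def lv (A : Path d) (T : ℝ) (x : V d) : ℝ := open Classical in if x = 0 then 0 else lev A T x

private theorem lv_ne (A : Path d) (T : ℝ) (x : V d) (hx : x ≠ 0) : lv A T x = lev A T x := by
  unfold lv
  rw [if_neg hx]

private theorem lv_z (A : Path d) (T : ℝ) : lv A T (0 : V d) = 0 := by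
  unfold lv
  rw [if_pos rfl]

theorem solid_lor (A : Path d) (T : ℝ) (h : Solid A T) (s : ℝ) (hs : s ∈ Set.Ioo 0 T) : Lor (A s) :=
  ⟨h.nested.symm s, fun z hz h0 => h.nested.pos s hs z hz h0, h.solid s hs⟩

theorem lv_range (A : Path d) (T : ℝ) (h : Solid A T) (x : V d) : 0 ≤ lv A T x ∧ lv A T x ≤ T := by
  by_cases hx : x = 0
  · subst hx
    rw [lv_z]
    exact ⟨le_refl 0, h.pos.le⟩
  · rw [lv_ne A T x hx]
    unfold lev
    refine ⟨Real.sSup_nonneg ?_, Real.sSup_le ?_ h.pos.le⟩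
    · rintro m ⟨hm, -⟩
      exact hm.1.le
    · rintro m ⟨hm, -⟩
      exact hm.2.le

theorem lv_iff (A : Path d) (T : ℝ) (h : Solid A T) (x : V d) (hx : x ≠ 0) (s : ℝ) (hs : s ∈ Set.Ioo 0 T) :
    s < lv A T x ↔ Q A s x x < 0 := by
  rw [lv_ne A T x hx]
  constructor
  · intro h1
    by_contra hcon
    rw [not_lt] at hcon
    rcases hcon.eq_or_lt with h2 | h2
    · have := Y.lev_eq h.nested hs x hx h2.symm
      linarith
    · have := Y.lev_lt h.nested hs x hx h2
      linarith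
  · intro h1
    exact Y.lt_lev h.nested hs x hx h1

theorem lv_root (A : Path d) (T : ℝ) (h : Solid A T) (x : V d) (h1 : 0 < lv A T x) (h2 : lv A T x < T) :
    x ≠ 0 ∧ lv A T x = lev A T x ∧ Q A (lev A T x) x x = 0 := by
  have hx : x ≠ 0 := by
    rintro rfl
    rw [lv_z] at h1
    exact lt_irrefl _ h1
  have he := lv_ne A T x hx
  refine ⟨hx, he, ?_⟩
  rw [he] at h1 h2
  have hs : lev A T x ∈ Set.Ioo 0 T := ⟨h1, h2⟩
  rcases lt_trichotomy (Q A (lev A T x) x x) 0 with h3 | h3 | h3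
  · exact absurd (Y.lt_lev h.nested hs x hx h3) (lt_irrefl _)
  · exact h3
  · exact absurd (Y.lev_lt h.nested hs x hx h3) (lt_irrefl _)

theorem lv_zero (A : Path d) (T : ℝ) (h : Solid A T) (x : V d) (hx : x 0 = 0) : lv A T x = 0 := by
  by_cases h0 : x = 0
  · subst h0
    exact lv_z A T
  · rw [lv_ne A T x h0]
    unfold lev
    have he : {s | s ∈ Set.Ioo 0 T ∧ Q A s x x ≤ 0} = ∅ := by
      ext s
      simp only [Set.mem_ofPred_eq, Set.mem_empty_iff_false, iff_false, not_and, not_le]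
      intro hs
      exact h.nested.pos s hs x h0 hx
    rw [he, Real.sSup_empty]

theorem lv_hom (A : Path d) (T : ℝ) (c : ℝ) (x : V d) (hc : c ≠ 0) : lv A T (c • x) = lv A T x := by
  by_cases h0 : x = 0
  · subst h0
    rw [smul_zero]
  · rw [lv_ne A T x h0, lv_ne A T (c • x) (smul_ne_zero hc h0)]
    exact Y.lev_smul A T c hc x

private theorem lv_near (A : Path d) (T : ℝ) (x : V d) (hx : x ≠ 0) : lv A T =ᶠ[𝓝 x] lev A T := by
  have h1 : ∀ᶠ y in 𝓝 x, y ≠ 0 := isOpen_ne.mem_nhds hx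
  filter_upwards [h1] with y hy
  exact lv_ne A T y hy

private theorem Qcont (A : Path d) (s : ℝ) : Continuous (fun y : V d => Q A s y y) := by
  unfold Q
  refine continuous_finsetSum _ fun i _ => continuous_finsetSum _ fun j _ => ?_
  exact continuous_const.mul ((continuous_apply i).mul (continuous_apply j))

theorem lv_cont (A : Path d) (T : ℝ) (h : Solid A T) : ContinuousOn (lv A T) {0}ᶜ := by
  intro x hx
  have hx0 : x ≠ 0 := hx
  apply ContinuousAt.continuousWithinAt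
  obtain ⟨hr1, hr2⟩ := lv_range A T h x
  have hne : ∀ᶠ y in 𝓝 x, y ≠ 0 := isOpen_ne.mem_nhds hx0
  have hlow : ∀ s ∈ Set.Ioo 0 T, s < lv A T x → ∀ᶠ y in 𝓝 x, s < lv A T y := by
    intro s hs hlt
    have h1 := (lv_iff A T h x hx0 s hs).1 hlt
    have h2 : ∀ᶠ y in 𝓝 x, Q A s y y < 0 := (Qcont A s).continuousAt.eventually (gt_mem_nhds h1)
    filter_upwards [h2, hne] with y hy hy0
    exact (lv_iff A T h y hy0 s hs).2 hy
  have hup : ∀ s ∈ Set.Ioo 0 T, lv A T x < s → ∀ᶠ y in 𝓝 x, lv A T y < s := by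
    intro s hs hlt
    have h1 : 0 < Q A s x x := by
      by_contra hcon
      rw [not_lt] at hcon
      have h3 : s ≤ lv A T x := by
        rcases hcon.eq_or_lt with h4 | h4
        · rw [lv_ne A T x hx0, Y.lev_eq h.nested hs x hx0 h4]
        · exact ((lv_iff A T h x hx0 s hs).2 h4).le
      linarith
    have h2 : ∀ᶠ y in 𝓝 x, 0 < Q A s y y := (Qcont A s).continuousAt.eventually (lt_mem_nhds h1)
    filter_upwards [h2, hne] with y hy hy0
    rw [lv_ne A T y hy0]
    exact Y.lev_lt h.nested hs y hy0 hy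
  have hT := h.pos
  refine tendsto_order.2 ⟨fun a ha => ?_, fun b hb => ?_⟩
  · by_cases ha0 : a < 0
    · exact Filter.Eventually.of_forall fun y => lt_of_lt_of_le ha0 (lv_range A T h y).1
    · rw [not_lt] at ha0
      obtain ⟨s, hs1, hs2⟩ := exists_between ha
      filter_upwards [hlow s ⟨by linarith, by linarith⟩ hs2] with y hy
      linarith
  · by_cases hbT : T < b
    · exact Filter.Eventually.of_forall fun y => lt_of_le_of_lt (lv_range A T h y).2 hbT
    · rw [not_lt] at hbT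
      obtain ⟨s, hs1, hs2⟩ := exists_between hb
      filter_upwards [hup s ⟨by linarith, by linarith⟩ hs1] with y hy
      linarith

theorem lv_smooth (A : Path d) (T : ℝ) (h : Solid A T) :
    ContDiffOn ℝ ∞ (lv A T) {x | 0 < lv A T x ∧ lv A T x < T} := by
  rintro x ⟨h1, h2⟩
  obtain ⟨hx, he, hQ⟩ := lv_root A T h x h1 h2
  have h3 : ContDiffAt ℝ ∞ (lev A T) x :=
    Y.lev_contDiffAt h.nested (s := lev A T x) (by rw [← he]; exact ⟨h1, h2⟩) x hx hQ
  exact (h3.congr_of_eventuallyEq (lv_near A T x hx)).contDiffWithinAt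

theorem lv_conv (A : Path d) (T : ℝ) (h : Solid A T) (x y : V d) (hx : 0 < x 0) (hy : 0 < y 0) :
    min (lv A T x) (lv A T y) ≤ lv A T (x + y) := by
  by_contra hcon
  rw [not_le] at hcon
  have hx0 : x ≠ 0 := by
    rintro rfl
    simp at hx
  have hy0 : y ≠ 0 := by
    rintro rfl
    simp at hy
  have hxy0 : x + y ≠ 0 := by
    intro h0
    have h1 : (x + y) 0 = 0 := by rw [h0]; rfl
    rw [Pi.add_apply] at h1
    linarith
  obtain ⟨s, hs1, hs2⟩ := exists_between hcon
  have hs3 := lt_of_lt_of_le hs2 (min_le_left _ _)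
  have hs4 := lt_of_lt_of_le hs2 (min_le_right _ _)
  have hs : s ∈ Set.Ioo 0 T :=
    ⟨lt_of_le_of_lt (lv_range A T h (x + y)).1 hs1, lt_of_lt_of_le hs3 (lv_range A T h x).2⟩
  have hqx := (lv_iff A T h x hx0 s hs).1 hs3
  have hqy := (lv_iff A T h y hy0 s hs).1 hs4
  have hqxy : Q A s x y < 0 := lor_neg_mul (A s) (solid_lor A T h s hs) x y hx hy hqx hqy
  have hq : Q A s (x + y) (x + y) < 0 := by
    rw [Y.Q_add, Y.Q_add_right, Y.Q_add_right, Y.Q_comm h.nested.symm s y x]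
    linarith
  have := (lv_iff A T h (x + y) hxy0 s hs).2 hq
  linarith

end Pool.Agent.Work.MP_659252_gt.SP
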