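import Pool.Agent.Work.MP_659252_gt.SP.C.LevA

/-!
# The level function is layered.  Size: M-L.

PROOFS.  `x` with `0 < lv x < T`, `s = lev A T x`, `Q A s x x = 0`, `x ≠ 0` (`lv_root`).  Near `x` `lv = lev`.
`lv_gr`: `lev_fderiv` with the basis vectors: `Q A s x (ee i) = AX A s x i` (symmetry).
`lv_gr_dot`: sum over `i`, or `fderiv`.
`lv_D2`: `Q A s x v = 0`, `φ t = lv (x + t v)`, smooth near `0`, `φ 0 = s`, `φ' 0 = 0` (`lv_gr_dot`).  Near `t = 0`: `Q A (φ t) (x + t v) (x + t v) = 0` (`lv_root`), i.e. with `q m y z = Q A m y z`: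
`q(φ)(x,x) + 2 t q(φ)(x,v) + t² q(φ)(v,v) = 0`.  Differentiate: `φ' [q'(φ)(x,x) + 2 t q'(φ)(x,v) + t² q'(φ)(v,v)] + 2 q(φ)(x,v) + 2 t q(φ)(v,v) = 0` near `0`; differentiate at `0` (`φ' 0 = 0`): `φ'' 0 q'(s)(x,x) + 2 q(s)(v,v) = 0`.
(`D2 f x v = iteratedDeriv 2 (fun t => f (x + t v)) 0`.)  `lv_layered`: `curv`: `gr ⬝ v = 0` means `Q A s x v = 0`; `lor_null` (`x` null, `v` not a multiple of `x`): `0 < Q A s v v`; `lv_D2`.  `reg`: `gr = 0` would give `AX A s x = 0`, `x = 0` by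
`lor_ker`.  The other fields: `C/LevA`.
-/

namespace Pool.Agent.Work.MP_659252_gt.SP

open scoped ContDiff Topology
open Pool.Agent.Work.MP_659252_gt.Z (V Ten val Tan InT)
open Pool.Agent.Work.MP_659252_gt.Y (Path Q AX dot Nested lev conf)
open Pool.Agent.Work.MP_659252_gt.QR (gr D2 Layered SymTen dir Bump Kq Loc Mat bil mul)

variable {d : ℕ}

/-- the second derivative of an implicit function of one variable -/
private theorem two_deriv (φ a b c a1 b1 c1 : ℝ → ℝ) (T s : ℝ)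
    (hφ : ContDiffAt ℝ ∞ φ 0) (hs : φ 0 = s) (hmem : ∀ᶠ t in 𝓝 (0 : ℝ), φ t ∈ Set.Ioo 0 T)
    (ha : ∀ m ∈ Set.Ioo 0 T, HasDerivAt a (a1 m) m) (hb : ∀ m ∈ Set.Ioo 0 T, HasDerivAt b (b1 m) m)
    (hc : ∀ m ∈ Set.Ioo 0 T, HasDerivAt c (c1 m) m)
    (ha1 : DifferentiableAt ℝ a1 s) (hb1 : DifferentiableAt ℝ b1 s) (hc1 : DifferentiableAt ℝ c1 s)
    (hF : ∀ᶠ t in 𝓝 (0 : ℝ), a (φ t) + 2 * t * b (φ t) + t ^ 2 * c (φ t) = 0)
    (hb0 : b s = 0) (ha0 : a1 s ≠ 0) : iteratedDeriv 2 φ 0 = -2 * c s / a1 s := by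
  have hd : ∀ᶠ t in 𝓝 (0 : ℝ), DifferentiableAt ℝ φ t := by
    have h1 : ContDiffAt ℝ 1 φ 0 := hφ.of_le (by exact_mod_cast le_top)
    have h2 := h1.eventually (by simp)
    filter_upwards [h2] with t ht
    exact ht.differentiableAt (by simp)
  have hG : ∀ᶠ t in 𝓝 (0 : ℝ), deriv φ t * (a1 (φ t) + 2 * t * b1 (φ t) + t ^ 2 * c1 (φ t)) +
      2 * b (φ t) + 2 * t * c (φ t) = 0 := by
    filter_upwards [hd, hmem, hF.eventually_nhds] with t ht hm hFt
    have h1 : HasDerivAt (fun t => a (φ t)) (a1 (φ t) * deriv φ t) t :=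
      (ha _ hm).comp t ht.hasDerivAt
    have h2 : HasDerivAt (fun t => b (φ t)) (b1 (φ t) * deriv φ t) t :=
      (hb _ hm).comp t ht.hasDerivAt
    have h3 : HasDerivAt (fun t => c (φ t)) (c1 (φ t) * deriv φ t) t :=
      (hc _ hm).comp t ht.hasDerivAt
    have h4 : HasDerivAt (fun t : ℝ => 2 * t) 2 t := by
      simpa using (hasDerivAt_id t).const_mul (2 : ℝ)
    have h5 : HasDerivAt (fun t : ℝ => t ^ 2) (2 * t) t := by
      simpa using hasDerivAt_pow 2 t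
    have h6 := (h1.add (h4.mul h2)).add (h5.mul h3)
    have h7 : HasDerivAt (fun _ : ℝ => (0 : ℝ)) 0 t := hasDerivAt_const t 0
    have h8 := h7.congr_of_eventuallyEq (f₁ := fun t => a (φ t) + 2 * t * b (φ t) + t ^ 2 * c (φ t))
      hFt
    have h9 := h6.unique h8
    linear_combination h9
  have hd0 : DifferentiableAt ℝ φ 0 := hd.self_of_nhds
  have hs0 : s ∈ Set.Ioo 0 T := hs ▸ hmem.self_of_nhds
  have hp0 : deriv φ 0 = 0 := by
    have h1 := hG.self_of_nhds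
    rw [hs, hb0] at h1
    have h2 : deriv φ 0 * a1 s = 0 := by linear_combination h1
    rcases mul_eq_zero.1 h2 with h3 | h3
    · exact h3
    · exact absurd h3 ha0
  have hdd : DifferentiableAt ℝ (deriv φ) 0 := by
    have h0 : ContDiffAt ℝ 2 φ 0 := hφ.of_le (WithTop.coe_le_coe.2 (le_top : (2 : ℕ∞) ≤ ⊤))
    have h1 : ContDiffAt ℝ 1 (fderiv ℝ φ) 0 := h0.fderiv_right (m := 1) (by norm_num)
    have h2 : ContDiffAt ℝ 1 (fun t => fderiv ℝ φ t 1) 0 := h1.clm_apply contDiffAt_const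
    exact h2.differentiableAt (by simp)
  have k0 : HasDerivAt (deriv φ) (deriv (deriv φ) 0) 0 := hdd.hasDerivAt
  have kφ : HasDerivAt φ 0 0 := by
    have := hd0.hasDerivAt
    rwa [hp0] at this
  have k1 : HasDerivAt (fun t => a1 (φ t)) (deriv a1 s * 0) 0 := by
    have h1 : HasDerivAt a1 (deriv a1 s) (φ 0) := by rw [hs]; exact ha1.hasDerivAt
    exact h1.comp (0 : ℝ) kφ
  have k2 : HasDerivAt (fun t => b1 (φ t)) (deriv b1 s * 0) 0 := by
    have h1 : HasDerivAt b1 (deriv b1 s) (φ 0) := by rw [hs]; exact hb1.hasDerivAt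
    exact h1.comp (0 : ℝ) kφ
  have k3 : HasDerivAt (fun t => c1 (φ t)) (deriv c1 s * 0) 0 := by
    have h1 : HasDerivAt c1 (deriv c1 s) (φ 0) := by rw [hs]; exact hc1.hasDerivAt
    exact h1.comp (0 : ℝ) kφ
  have k4 : HasDerivAt (fun t => b (φ t)) (b1 s * 0) 0 := by
    have h1 : HasDerivAt b (b1 s) (φ 0) := by rw [hs]; exact hb s hs0
    exact h1.comp (0 : ℝ) kφ
  have k5 : HasDerivAt (fun t => c (φ t)) (c1 s * 0) 0 := by
    have h1 : HasDerivAt c (c1 s) (φ 0) := by rw [hs]; exact hc s hs0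
    exact h1.comp (0 : ℝ) kφ
  have k6 : HasDerivAt (fun t : ℝ => 2 * t) 2 0 := by
    simpa using (hasDerivAt_id (0 : ℝ)).const_mul (2 : ℝ)
  have k7 : HasDerivAt (fun t : ℝ => t ^ 2) 0 0 := by
    simpa using hasDerivAt_pow 2 (0 : ℝ)
  have k8 := ((k0.mul ((k1.add (k6.mul k2)).add (k7.mul k3))).add (k4.const_mul 2)).add (k6.mul k5)
  have k9 : HasDerivAt (fun _ : ℝ => (0 : ℝ)) 0 0 := hasDerivAt_const 0 0
  have k10 := k9.congr_of_eventuallyEq (f₁ := fun t => deriv φ t *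
    (a1 (φ t) + 2 * t * b1 (φ t) + t ^ 2 * c1 (φ t)) + 2 * b (φ t) + 2 * t * c (φ t)) hG
  have k11 := k8.unique k10
  simp only [Pi.add_apply, Pi.mul_apply, hs, hp0] at k11
  have e2 : iteratedDeriv 2 φ 0 = deriv (deriv φ) 0 := by
    rw [show (2 : ℕ) = 1 + 1 from rfl, iteratedDeriv_succ, iteratedDeriv_one]
  rw [e2, eq_div_iff ha0]
  linear_combination k11

private theorem lv_near (A : Path d) (T : ℝ) (x : V d) (hx : x ≠ 0) :
    lv A T =ᶠ[𝓝 x] lev A T := by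
  filter_upwards [isOpen_ne.mem_nhds hx] with y hy
  unfold lv
  rw [if_neg hy]

theorem lv_gr (A : Path d) (T : ℝ) (h : Solid A T) (x : V d) (h1 : 0 < lv A T x) (h2 : lv A T x < T) :
    gr (lv A T) x = (-2 / Q (dot A) (lev A T x) x x) • AX A (lev A T x) x := by
  obtain ⟨hx, he, hq⟩ := lv_root A T h x h1 h2
  have hs : lev A T x ∈ Set.Ioo 0 T := ⟨he ▸ h1, he ▸ h2⟩
  funext i
  show fderiv ℝ (lv A T) x (Pi.single i 1) = _
  rw [(lv_near A T x hx).fderiv_eq, Y.lev_fderiv h.nested hs x hx hq, Y.Q_eq_dot' h.nested.symm,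
    Pi.smul_apply, smul_eq_mul, dotProduct_single_one]
  ring

theorem lv_D2 (A : Path d) (T : ℝ) (h : Solid A T) (x v : V d) (h1 : 0 < lv A T x) (h2 : lv A T x < T)
    (hv : Q A (lev A T x) x v = 0) :
    D2 (lv A T) x v = -2 * Q A (lev A T x) v v / Q (dot A) (lev A T x) x x := by
  obtain ⟨hx, he, hq⟩ := lv_root A T h x h1 h2
  have hs : lev A T x ∈ Set.Ioo 0 T := ⟨he ▸ h1, he ▸ h2⟩
  have hA := h.nested
  have hx0 : x + (0 : ℝ) • v = x := by simp
  have hlc : ContDiffAt ℝ ∞ (lv A T) x :=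
    (Y.lev_contDiffAt hA hs x hx hq).congr_of_eventuallyEq (lv_near A T x hx)
  have hφ : ContDiffAt ℝ ∞ (fun t : ℝ => lv A T (x + t • v)) 0 := by
    have h3 : ContDiffAt ℝ ∞ (lv A T) (x + (0 : ℝ) • v) := by rw [hx0]; exact hlc
    have h4 : ContDiffAt ℝ ∞ (fun t : ℝ => x + t • v) 0 := by fun_prop
    exact ContDiffAt.comp (g := lv A T) (f := fun t : ℝ => x + t • v) (0 : ℝ) h3 h4
  have hcont : ContinuousAt (fun t : ℝ => lv A T (x + t • v)) 0 := hφ.continuousAt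
  have hmem : ∀ᶠ t in 𝓝 (0 : ℝ), lv A T (x + t • v) ∈ Set.Ioo 0 T := by
    refine hcont.eventually_mem (isOpen_Ioo.mem_nhds ?_)
    show lv A T (x + (0 : ℝ) • v) ∈ Set.Ioo 0 T
    rw [hx0]
    exact ⟨h1, h2⟩
  have hpos := hA.mono _ hs x hx
  refine two_deriv (fun t : ℝ => lv A T (x + t • v)) (fun m => Q A m x x) (fun m => Q A m x v)
    (fun m => Q A m v v) (fun m => Q (dot A) m x x) (fun m => Q (dot A) m x v)
    (fun m => Q (dot A) m v v) T (lev A T x) hφ ?_ hmem (fun m hm => Y.Q_deriv hA hm x x)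
    (fun m hm => Y.Q_deriv hA hm x v) (fun m hm => Y.Q_deriv hA hm v v)
    (Y.Qd_deriv hA hs x x).differentiableAt (Y.Qd_deriv hA hs x v).differentiableAt
    (Y.Qd_deriv hA hs v v).differentiableAt ?_ hv hpos.ne'
  · show lv A T (x + (0 : ℝ) • v) = lev A T x
    rw [hx0, he]
  · filter_upwards [hmem] with t ht
    obtain ⟨-, he', hq'⟩ := lv_root A T h (x + t • v) ht.1 ht.2
    rw [← he'] at hq'
    rw [Y.Q_add, Y.Q_smul, Y.Q_add_right, Y.Q_add_right, Y.Q_smul_right, Y.Q_smul_right,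
      Y.Q_comm hA.symm _ v x] at hq'
    show Q A (lv A T (x + t • v)) x x + 2 * t * Q A (lv A T (x + t • v)) x v +
      t ^ 2 * Q A (lv A T (x + t • v)) v v = 0
    linear_combination hq'

theorem lv_layered (A : Path d) (T : ℝ) (h : Solid A T) : Layered (lv A T) T := by
  have key : ∀ x : V d, 0 < lv A T x → lv A T x < T →
      x ≠ 0 ∧ lev A T x ∈ Set.Ioo 0 T ∧ Q A (lev A T x) x x = 0 := by
    intro x h1 h2
    obtain ⟨hx, he, hq⟩ := lv_root A T h x h1 h2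
    exact ⟨hx, ⟨he ▸ h1, he ▸ h2⟩, hq⟩
  refine
    { hom := fun c x hc => lv_hom A T c x hc
      zero := fun x hx => lv_zero A T h x hx
      nonneg := fun x => (lv_range A T h x).1
      cont := lv_cont A T h
      smooth := lv_smooth A T h
      reg := ?_
      conv := fun x y hx hy => lv_conv A T h x y hx hy
      curv := ?_ }
  · intro x h1 h2 h3
    obtain ⟨hx, hs, hq⟩ := key x h1 h2
    have hpos := h.nested.mono _ hs x hx
    rw [lv_gr A T h x h1 h2] at h3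
    rcases smul_eq_zero.1 h3 with h4 | h4
    · have h5 : (-2 : ℝ) / Q (dot A) (lev A T x) x x ≠ 0 := div_ne_zero (by norm_num) hpos.ne'
      exact h5 h4
    · exact hx (lor_ker (A (lev A T x)) (solid_lor A T h _ hs) x h4)
  · intro x v h1 h2 h3 h4
    obtain ⟨hx, hs, hq⟩ := key x h1 h2
    have hpos := h.nested.mono _ hs x hx
    rw [lv_gr A T h x h1 h2, smul_dotProduct, ← Y.Q_eq_dot' h.nested.symm, smul_eq_mul] at h3
    have h5 : Q A (lev A T x) x v = 0 := by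
      rcases mul_eq_zero.1 h3 with h6 | h6
      · exact absurd h6 (div_ne_zero (by norm_num) hpos.ne')
      · exact h6
    obtain ⟨h6, h7⟩ := lor_null (A (lev A T x)) (solid_lor A T h _ hs) x v hx hq h5
    have h8 : 0 < Q A (lev A T x) v v := by
      refine lt_of_le_of_ne h6 fun h9 => ?_
      obtain ⟨c, hc⟩ := h7 h9.symm
      exact h4 c hc
    rw [lv_D2 A T h x v h1 h2 h5]
    have h9 : -2 * Q A (lev A T x) v v < 0 := by linarith
    exact div_neg_of_neg_of_pos h9 hpos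

end Pool.Agent.Work.MP_659252_gt.SP
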