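import Pool.Agent.Work.MP_659252_gt.SP.C.Pair
import Pool.Agent.Work.MP_659252_gt.SP.C.Conn
import Pool.Agent.Work.MP_659252_gt.SP.G.Compar

/-!
# Necessity.  Size: M.

PROOF.  Let `i ≠ j`.  For `B₁ ∈ Prof (T i)`, `B₂ ∈ Prof (T j)` apply the hypothesis to the family `B n = B₁` for `n = i`, `B₂` for `n = j`, `0` otherwise (`Prof (T n) 0`: with `a = T n/3`, `c = T n/2`); `conf A T 0 = 0`, so the sum over `n` is
`conf (A i) (T i) B₁ + conf (A j) (T j) B₂` (`Finset.sum_eq_add i j`).  So `pair_noCT` applies: `NoCT (A i s) (A j t)` for all `s`, `t`.  `compar` (with `solid_lor`; `2 ≤ d`; `bil (A s) = Q A s` by definition): the cones are comparable.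
`conn` with `hne`.
-/

namespace Pool.Agent.Work.MP_659252_gt.SP

open scoped ContDiff Topology
open Pool.Agent.Work.MP_659252_gt.Z (V Ten val Tan InT)
open Pool.Agent.Work.MP_659252_gt.Y (Path Q AX dot Nested lev conf)
open Pool.Agent.Work.MP_659252_gt.QR (gr D2 Layered SymTen dir Bump Kq Loc Mat bil mul)

variable {d : ℕ}

theorem nec (hd : 3 ≤ d) (ι : Type) [Fintype ι] (A : ι → Path d) (T : ι → ℝ) (hA : ∀ i, Solid (A i) (T i))
    (hne : ∀ i j, i ≠ j → ∀ s ∈ Set.Ioo 0 (T i), ∀ t ∈ Set.Ioo 0 (T j),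
      ∃ x : V d, ¬(Q (A i) s x x ≤ 0 ↔ Q (A j) t x x ≤ 0))
    (hz : ∀ B : ι → ℝ → ℝ, (∀ i, Prof (T i) (B i)) →
      InT (fun x k l => ∑ i, conf (A i) (T i) (B i) x k l)) (i j : ι) (hij : i ≠ j) :
    Inside (A i) (T i) (A j) (T j) ∨ Inside (A j) (T j) (A i) (T i) := by
  classical
  have h0 : ∀ n, Prof (T n) (fun _ => 0) := fun n =>
    ⟨contDiff_const, T n / 3, T n / 2, by have := (hA n).pos; linarith,
      by have := (hA n).pos; linarith, fun _ _ => rfl⟩
  have hpair : ∀ B₁ B₂ : ℝ → ℝ, Prof (T i) B₁ → Prof (T j) B₂ →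
      InT (fun x k l => conf (A i) (T i) B₁ x k l + conf (A j) (T j) B₂ x k l) := by
    intro B₁ B₂ h1 h2
    have h := hz (fun n => if n = i then B₁ else if n = j then B₂ else fun _ => 0) (by
      intro n
      by_cases hn : n = i
      · subst hn
        simpa using h1
      · by_cases hn2 : n = j
        · subst hn2
          simpa [hn] using h2
        · simpa [hn, hn2] using h0 n)
    have e : (fun (x : V d) k l => ∑ n, conf (A n) (T n)
        ((fun n => if n = i then B₁ else if n = j then B₂ else fun _ => (0 : ℝ)) n) x k l) =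
        fun x k l => conf (A i) (T i) B₁ x k l + conf (A j) (T j) B₂ x k l := by
      funext x k l
      rw [Fintype.sum_eq_add i j hij]
      · simp [hij.symm]
      · rintro n ⟨hn1, hn2⟩
        simp [hn1, hn2, conf]
    rw [← e]
    exact h
  have hnc : ∀ s ∈ Set.Ioo 0 (T i), ∀ t ∈ Set.Ioo 0 (T j), NoCT (A i s) (A j t) :=
    fun s hs t ht => pair_noCT hd _ _ _ _ (hA i) (hA j) hpair s t hs ht
  exact conn _ _ _ _ (hA i) (hA j) (hne i j hij) fun s hs t ht =>
    compar (by omega) _ _ (solid_lor _ _ (hA i) s hs) (solid_lor _ _ (hA j) t ht) (hnc s hs t ht)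

end Pool.Agent.Work.MP_659252_gt.SP
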