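import Pool.Agent.Work.MP_659252_gt.SP.C.ConfD
import Pool.Agent.Work.MP_659252_gt.SP.A.NoCom
import Pool.Agent.Work.MP_659252_gt.Y.Fin

/-!
# Two families of cones: no common tangent planes.  Size: M-L.

PROOF.  Let `P ≠ 0`, `Q A₂ s₂ P P = 0`, `Q A₁ s₁ Y Y = 0`, `AX A₂ s₂ P = AX A₁ s₁ Y`.  `AX A₂ s₂ P ≠ 0` (`lor_ker`), so `Y ≠ 0`.  `P 0 ≠ 0`, `Y 0 ≠ 0` (`lor_zero`).  Replace `P` by `P' = (P 0)⁻¹ P`, `Y' = (Y 0)⁻¹ Y`, `P' 0 = Y' 0 = 1`;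
`AX A₁ s₁ Y' = c' AX A₂ s₂ P'`, `c' ≠ 0`.  We show `P' = Y'`, then `P = (P 0/Y 0) Y`.
`f_i = lv A_i T_i`, `w_i = wt A_i T_i`, `k_i = 0`.  `f₂ P' = s₂`, `f₁ Y' = s₁` (`lev_eq`).  `QR.cut` (QR/Q/CutB) applied to `f_i, w_i, k_i` (`lv_layered`, `wt_smooth`, `wt_hom`; `InT (dir f_i w_i k_i b)` for `b` in `Bump 0 T_i`: it is
`conf A_i T_i (deriv b)` (`conf_dir`), in `InT` by `Y.main` (first part; support of `deriv b` in `[a, c]`; if `c < a`, `b = 0`, use another interval)) at the level `s_i` gives `g_i, v_i, m_i, lo_i, hi_i` and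
`Loc g₁ v₁ m₁ lo₁ hi₁ Y'`, `Loc g₂ v₂ m₂ lo₂ hi₂ P'`.  `Two`: for `b₁`, `b₂` the sum of the directions is
`dir f₁ .. b₁ + dir f₂ .. b₂ = conf A₁ T₁ (deriv b₁) + conf A₂ T₂ (deriv b₂)` (`dir_cut`, `conf_dir`; a `Bump lo hi` with `0 < lo`, `hi < T` is a `Bump 0 T`), in `InT` by the hypothesis `hz` (`Prof T (deriv b)`).
`gr g₁ Y' = gr f₁ Y' = α AX A₁ s₁ Y'`, `gr g₂ P' = gr f₂ P' = β AX A₂ s₂ P'`, `α, β ≠ 0` (`lv_gr`; `g = f` near the point), so `gr g₁ Y' = c gr g₂ P'`.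
If `P' ≠ Y'`: `W = Y' - P'`, `W 0 = 0`, `gr g₂ P' ⬝ W = 0` (`gr g₂ P' ⬝ P' = 0`, `gr g₂ P' ⬝ Y' = c⁻¹ gr g₁ Y' ⬝ Y' = 0`, `QR.gr_rad`), so `kq_ne` gives the hypotheses `hK₁`, `hK₂` of `nocom` (`v_i = w_i > 0`, `m_i = 0` at the points);
`nocom` gives `P' = Y'`.
-/

namespace Pool.Agent.Work.MP_659252_gt.SP

open scoped ContDiff Topology
open Pool.Agent.Work.MP_659252_gt.Z (V Ten val Tan InT)
open Pool.Agent.Work.MP_659252_gt.Y (Path Q AX dot Nested lev conf)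
open Pool.Agent.Work.MP_659252_gt.QR (gr D2 Layered SymTen dir Bump Kq Loc Mat bil mul)

variable {d : ℕ}

private theorem gr_cg (f g : V d → ℝ) (x : V d) (h : g =ᶠ[𝓝 x] f) : gr g x = gr f x := by
  funext i
  simp only [gr]
  rw [h.fderiv_eq]

private theorem bump_prof (T : ℝ) (b : ℝ → ℝ) (hb : Bump 0 T b) :
    Prof T (deriv b) := by
  obtain ⟨hs, a, c, ha, hc, h0⟩ := hb
  refine ⟨(contDiff_infty_iff_deriv.1 hs).2, a, c, ha, hc, fun s hs' => ?_⟩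
  have h1 : b =ᶠ[𝓝 s] fun _ => (0 : ℝ) := by
    filter_upwards [isClosed_Icc.isOpen_compl.mem_nhds hs'] with t ht
    exact h0 t ht
  rw [h1.deriv_eq]
  simp

private theorem prof_inT (hd : 3 ≤ d) (A : Path d) (T : ℝ) (h : Solid A T) (B : ℝ → ℝ) (hB : Prof T B) :
    InT (conf A T B) := by
  obtain ⟨hs, a, c, ha, hc, h0⟩ := hB
  rcases le_or_gt a c with hac | hac
  · exact (Y.main d hd A T h.nested B hs a c ha hac hc h0).1
  · refine (Y.main d hd A T h.nested B hs (T / 2) (T / 2) (by linarith [h.pos]) le_rfl (by linarith [h.pos])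
      fun s _ => h0 s fun h1 => ?_).1
    have := h1.1.trans h1.2
    linarith

private theorem one (hd : 3 ≤ d) (A : Path d) (T : ℝ) (h : Solid A T) (s : ℝ) (hs : s ∈ Set.Ioo 0 T) :
    ∃ (g v : V d → ℝ) (m : Ten d) (lo hi : ℝ),
      (∀ b : ℝ → ℝ, Bump lo hi b → dir g v m b = conf A T (deriv b) ∧ Prof T (deriv b)) ∧
      ∀ P : V d, P 0 = 1 → Q A s P P = 0 → Loc g v m lo hi P ∧ m P = 0 ∧ 0 < v P ∧
        ∃ α : ℝ, α ≠ 0 ∧ gr g P = α • AX A s P := by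
  have hf := lv_layered A T h
  have hk : SymTen (fun _ _ _ => 0 : Ten d) {x | 0 < lv A T x ∧ lv A T x < T} :=
    { smooth := contDiffOn_const
      symm := fun _ _ _ => rfl
      hom := fun _ _ _ => rfl
      tan := fun x v => by simp [val] }
  have hz : ∀ b : ℝ → ℝ, Bump 0 T b → InT (dir (lv A T) (wt A T) (fun _ _ _ => 0) b) := by
    intro b hb
    rw [← conf_dir A T h b hb]
    exact prof_inT hd A T h _ (bump_prof T b hb)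
  obtain ⟨g, v, m, lo, hi, hlo, hlos, hshi, hhi, heq, hle, hge, hloc⟩ :=
    QR.cut (lv A T) (wt A T) (fun _ _ _ => 0) T hf hk (wt_smooth A T h)
      (fun c x hc => wt_hom A T c x hc) hz s hs.1 hs.2
  refine ⟨g, v, m, lo, hi, fun b hb => ?_, fun P hP0 hPQ => ?_⟩
  · have hb' : Bump 0 T b := by
      obtain ⟨h1, a, c, ha, hc, h0⟩ := hb
      exact ⟨h1, a, c, by linarith, by linarith, h0⟩
    refine ⟨?_, bump_prof T b hb'⟩
    rw [conf_dir A T h b hb']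
    exact dir_cut (lv A T) (wt A T) g v (fun _ _ _ => 0) m lo hi hf.cont heq hle hge b hb
  · have hPne : P ≠ 0 := by
      rintro rfl
      simp at hP0
    have hlev : lev A T P = s := Y.lev_eq h.nested hs P hPne hPQ
    have hlv : lv A T P = s := by
      unfold lv
      rw [if_neg hPne, hlev]
    have h1 : lo < lv A T P := by rw [hlv]; exact hlos
    have h2 : lv A T P < hi := by rw [hlv]; exact hshi
    have h3 : 0 < lv A T P := by rw [hlv]; exact hs.1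
    have h4 : lv A T P < T := by rw [hlv]; exact hs.2
    obtain ⟨-, e2, e3⟩ := heq P h1 h2
    have hev : g =ᶠ[𝓝 P] lv A T := by
      have hc : ContinuousAt (lv A T) P := hf.cont.continuousAt (isOpen_compl_singleton.mem_nhds hPne)
      filter_upwards [hc.eventually (isOpen_Ioo.mem_nhds (show lv A T P ∈ Set.Ioo lo hi from ⟨h1, h2⟩))]
        with y hy using (heq y hy.1 hy.2).1
    have hmono := h.nested.mono s hs P hPne
    refine ⟨hloc P (by rw [hP0]; exact one_pos) h1 h2, ?_, ?_, -2 / Q (dot A) s P P, ?_, ?_⟩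
    · rw [e3]
      rfl
    · rw [e2]
      exact wt_pos A T h P h3 h4
    · exact div_ne_zero (by norm_num) hmono.ne'
    · rw [gr_cg _ _ _ hev, lv_gr A T h P h3 h4, hlev]

theorem pair_noCT (hd : 3 ≤ d) (A₁ : Path d) (T₁ : ℝ) (A₂ : Path d) (T₂ : ℝ) (h₁ : Solid A₁ T₁) (h₂ : Solid A₂ T₂)
    (hz : ∀ B₁ B₂ : ℝ → ℝ, Prof T₁ B₁ → Prof T₂ B₂ →
      InT (fun x i j => conf A₁ T₁ B₁ x i j + conf A₂ T₂ B₂ x i j))
    (s₁ s₂ : ℝ) (hs₁ : s₁ ∈ Set.Ioo 0 T₁) (hs₂ : s₂ ∈ Set.Ioo 0 T₂) : NoCT (A₁ s₁) (A₂ s₂) := by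
  intro P U hP hPP hYY hPY
  have hL₁ := solid_lor A₁ T₁ h₁ s₁ hs₁
  have hL₂ := solid_lor A₂ T₂ h₂ s₂ hs₂
  have hY : U ≠ 0 := by
    rintro rfl
    refine hP (lor_ker _ hL₂ P ?_)
    rw [hPY]
    funext i
    simp [mul]
  have hP0 : P 0 ≠ 0 := lor_zero _ hL₂ P hP hPP.le
  have hY0 : U 0 ≠ 0 := lor_zero _ hL₁ U hY hYY.le
  set P' : V d := (P 0)⁻¹ • P with hP'
  set U' : V d := (U 0)⁻¹ • U with hY'
  have hP'0 : P' 0 = 1 := by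
    rw [hP', Pi.smul_apply, smul_eq_mul, inv_mul_cancel₀ hP0]
  have hY'0 : U' 0 = 1 := by
    rw [hY', Pi.smul_apply, smul_eq_mul, inv_mul_cancel₀ hY0]
  have hQP : Q A₂ s₂ P' P' = 0 := by
    rw [hP', Y.Q_smul, Y.Q_smul_right]
    have : Q A₂ s₂ P P = 0 := hPP
    rw [this]
    ring
  have hQY : Q A₁ s₁ U' U' = 0 := by
    rw [hY', Y.Q_smul, Y.Q_smul_right]
    have : Q A₁ s₁ U U = 0 := hYY
    rw [this]
    ring
  have hXX : AX A₂ s₂ P = AX A₁ s₁ U := hPY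
  have hPe : P = P 0 • P' := by
    rw [hP', smul_smul, mul_inv_cancel₀ hP0, one_smul]
  have hYe : U = U 0 • U' := by
    rw [hY', smul_smul, mul_inv_cancel₀ hY0, one_smul]
  have hX' : AX A₁ s₁ U' = ((U 0)⁻¹ * P 0) • AX A₂ s₂ P' := by
    have e1 : AX A₂ s₂ P = P 0 • AX A₂ s₂ P' := by
      rw [hP', Y.AX_smul, smul_smul, mul_inv_cancel₀ hP0, one_smul]
    rw [hY', Y.AX_smul, ← hXX, e1, smul_smul]
  obtain ⟨g₁, v₁, m₁, lo₁, hi₁, hd₁, hl₁⟩ := one hd A₁ T₁ h₁ s₁ hs₁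
  obtain ⟨g₂, v₂, m₂, lo₂, hi₂, hd₂, hl₂⟩ := one hd A₂ T₂ h₂ s₂ hs₂
  obtain ⟨L₁, hm₁, hv₁, α, hα, hgα⟩ := hl₁ U' hY'0 hQY
  obtain ⟨L₂, hm₂, hv₂, β, hβ, hgβ⟩ := hl₂ P' hP'0 hQP
  have hP'ne : P' ≠ 0 := by
    intro h
    rw [h] at hP'0
    simp at hP'0
  have hY'ne : U' ≠ 0 := by
    intro h
    rw [h] at hY'0
    simp at hY'0
  have key : P' = U' := by
    by_contra hne
    have H : Two g₁ v₁ m₁ lo₁ hi₁ U' g₂ v₂ m₂ lo₂ hi₂ P' :=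
      { L₁ := L₁
        L₂ := L₂
        sum := fun b₁ b₂ hb₁ hb₂ => by
          obtain ⟨e1, p1⟩ := hd₁ b₁ hb₁
          obtain ⟨e2, p2⟩ := hd₂ b₂ hb₂
          rw [e1, e2]
          exact hz _ _ p1 p2 }
    have hc0 : α * ((U 0)⁻¹ * P 0) * β⁻¹ ≠ 0 :=
      mul_ne_zero (mul_ne_zero hα (mul_ne_zero (inv_ne_zero hY0) hP0)) (inv_ne_zero hβ)
    have hc : gr g₁ U' = (α * ((U 0)⁻¹ * P 0) * β⁻¹) • gr g₂ P' := by
      rw [hgα, hgβ, hX', smul_smul, smul_smul]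
      congr 1
      field_simp
    have r1 : gr g₁ U' ⬝ᵥ U' = 0 := QR.gr_rad g₁ L₁.fs L₁.fh U' hY'ne
    have r2 : gr g₂ P' ⬝ᵥ P' = 0 := QR.gr_rad g₂ L₂.fs L₂.fh P' hP'ne
    have r3 : gr g₁ U' ⬝ᵥ P' = 0 := by
      rw [hc, smul_dotProduct, r2, smul_zero]
    have r4 : gr g₂ P' ⬝ᵥ U' = 0 := by
      have h5 := r1
      rw [hc, smul_dotProduct, smul_eq_mul] at h5
      exact (mul_eq_zero.1 h5).resolve_left hc0
    have w1 : gr g₁ U' ⬝ᵥ (U' - P') = 0 := by rw [dotProduct_sub, r1, r3, sub_zero]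
    have w2 : gr g₂ P' ⬝ᵥ (U' - P') = 0 := by rw [dotProduct_sub, r4, r2, sub_zero]
    have w0 : (U' - P') 0 = 0 := by rw [Pi.sub_apply, hY'0, hP'0, sub_self]
    have wn : U' - P' ≠ 0 := fun h => hne (sub_eq_zero.1 h).symm
    exact hne (nocom hd g₁ v₁ m₁ lo₁ hi₁ U' g₂ v₂ m₂ lo₂ hi₂ P' H (by rw [hP'0, hY'0]) _ hc
      (kq_ne g₁ v₁ m₁ lo₁ hi₁ U' L₁ hm₁ hv₁ _ w1 w0 wn)
      (kq_ne g₂ v₂ m₂ lo₂ hi₂ P' L₂ hm₂ hv₂ _ w2 w0 wn))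
  refine ⟨P 0 * (U 0)⁻¹, ?_⟩
  calc P = P 0 • P' := hPe
    _ = P 0 • U' := by rw [key]
    _ = (P 0 * (U 0)⁻¹) • U := by rw [hY', smul_smul]

end Pool.Agent.Work.MP_659252_gt.SP
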